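import Pool.Agent.Helper76.Q7P5.StC

/-!
# Levels `7 * 5^n`, module E1B: even exponent, injectivity

Models: modules E1BK of helper25 and E1BK7 of helper77.
-/

set_option autoImplicit false

namespace Pool.Agent.Helper75.Q7P5

open Pool.Agent.Helper76.Q7P5 Pool.Agent.Helper28.T7
open Pool.Agent.Helper14.CV (Homog EqC act StFar ne_zero_of_det)

private lemma dvd5 {n : ℤ} : (5 : ℤ) ∣ n ↔ (n : ZMod 5) = 0 :=
  (ZMod.intCast_zmod_eq_zero_iff_dvd n 5).symm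

/-- a diagonal entry is a unit -/
private lemma ut (j : ℕ) {a d b c e : ℤ} (h : a * d - 5 * b * (5 * c) = e)
    (he : e = 1 ∨ e = 7) : IsUnit (a : ZMod (5 ^ (j + 1))) := by
  rw [ZMod.coe_int_isUnit_iff_isCoprime]
  push_cast
  apply IsCoprime.pow_left
  rcases he with rfl | rfl
  · exact ⟨-5 * (b * c), d, by linear_combination h⟩
  · exact ⟨-15 * (b * c) - 4, 3 * d, by linear_combination 3 * h⟩

/-- every matrix has coordinates -/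
private lemma exPl (j : ℕ) {a b c d : ℤ} (h : HTy a (5 ^ 1 * b) (5 * c) d) :
    ∃ x y : ZMod (5 ^ (j + 1)), PlH 1 a b c d x y := by
  have he : ∃ e, a * d - 5 * b * (5 * c) = e ∧ (e = 1 ∨ e = 7) := by
    rcases h with h | h
    · exact ⟨1, by linear_combination h.1, Or.inl rfl⟩
    · exact ⟨7, by linear_combination h.1, Or.inr rfl⟩
  obtain ⟨e, h1, h2⟩ := he
  have ha := ut j h1 h2
  have hd := ut j (a := d) (d := a) (b := b) (c := c) (e := e) (by linear_combination h1) h2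
  refine ⟨b * (a : ZMod (5 ^ (j + 1)))⁻¹, c * (d : ZMod (5 ^ (j + 1)))⁻¹, h, ?_, ?_⟩
  · rw [mul_assoc, ZMod.inv_mul_of_unit _ ha, mul_one]
  · rw [mul_assoc, ZMod.inv_mul_of_unit _ hd, mul_one]

/-- images of nonzero vectors -/
private lemma nz {a b c d : ℤ} (h : HTy a b c d) {u1 u2 : ℤ} (hu : u1 ≠ 0 ∨ u2 ≠ 0) :
    a * u1 + b * u2 ≠ 0 ∨ c * u1 + d * u2 ≠ 0 :=
  ne_zero_of_det (a := a) (b := b) (c := c) (d := d) h.det_ne hu

/-- the symmetries of the potential -/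
private structure Inv (G : ℤ → ℤ → ℂ) : Prop where
  hom : Homog G
  st : ∀ x y z w : ℤ, (x ≠ 0 ∨ y ≠ 0) → (z ≠ 0 ∨ w ≠ 0) → G (-x) y - G (-z) w = G x y - G z w
  sw : ∀ x y z w : ℤ, (x ≠ 0 ∨ y ≠ 0) → (z ≠ 0 ∨ w ≠ 0) →
    G y (7 * x) - G w (7 * z) = -(G x y - G z w)

/-- the two vectors have equal values for all matrices -/
private def W (G : ℤ → ℤ → ℂ) (u1 u2 v1 v2 : ℤ) : Prop :=
  (u1 ≠ 0 ∨ u2 ≠ 0) ∧ (v1 ≠ 0 ∨ v2 ≠ 0) ∧ ∀ a b c d : ℤ, HTy a (5 * b) (5 * c) d →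
    G (a * u1 + 5 * b * u2) (5 * c * u1 + d * u2) = G (a * v1 + 5 * b * v2) (5 * c * v1 + d * v2)

section

variable {G : ℤ → ℤ → ℂ}

private lemma W.tr {u1 u2 v1 v2 w1 w2 : ℤ} (h : W G u1 u2 v1 v2) (h' : W G v1 v2 w1 w2) :
    W G u1 u2 w1 w2 :=
  ⟨h.1, h'.2.1, fun a b c d hT => (h.2.2 a b c d hT).trans (h'.2.2 a b c d hT)⟩

private lemma W.sy {u1 u2 v1 v2 : ℤ} (h : W G u1 u2 v1 v2) : W G v1 v2 u1 u2 :=
  ⟨h.2.1, h.1, fun a b c d hT => (h.2.2 a b c d hT).symm⟩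

/-- scaling -/
private lemma W.sc (hI : Inv G) {s1 s2 t1 t2 : ℤ} (h : W G s1 s2 t1 t2) (k l : ℤ)
    {u1 u2 v1 v2 : ℤ} (hs : k ≠ 0 ∧ l ≠ 0 ∧ s1 = k * u1 ∧ s2 = k * u2 ∧ t1 = l * v1 ∧
      t2 = l * v2) : W G u1 u2 v1 v2 := by
  obtain ⟨hk, hl, rfl, rfl, rfl, rfl⟩ := hs
  obtain ⟨h1, h2, h3⟩ := h
  have hu : u1 ≠ 0 ∨ u2 ≠ 0 := by
    rcases h1 with h | h
    · exact Or.inl (right_ne_zero_of_mul h)
    · exact Or.inr (right_ne_zero_of_mul h)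
  have hv : v1 ≠ 0 ∨ v2 ≠ 0 := by
    rcases h2 with h | h
    · exact Or.inl (right_ne_zero_of_mul h)
    · exact Or.inr (right_ne_zero_of_mul h)
  refine ⟨hu, hv, fun a b c d hT => ?_⟩
  have e := h3 a b c d hT
  have f1 := hI.hom k _ _ hk (nz hT hu)
  have f2 := hI.hom l _ _ hl (nz hT hv)
  rw [← f1, ← f2]
  calc _ = _ := by congr 1 <;> ring
    _ = _ := e
    _ = _ := by congr 1 <;> ring

private lemma neq {x y : ℤ} (h : x ≠ 0 ∨ y ≠ 0) : -x ≠ 0 ∨ y ≠ 0 := by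
  rcases h with h | h
  · exact Or.inl (neg_ne_zero.2 h)
  · exact Or.inr h

private lemma swq' {x y : ℤ} (h : x ≠ 0 ∨ y ≠ 0) : -y ≠ 0 ∨ 7 * x ≠ 0 := by
  rcases h with h | h
  · exact Or.inr (by omega)
  · exact Or.inl (neg_ne_zero.2 h)

private lemma swq {x y : ℤ} (h : x ≠ 0 ∨ y ≠ 0) : y ≠ 0 ∨ 7 * x ≠ 0 := by
  rcases h with h | h
  · exact Or.inr (by omega)
  · exact Or.inl h

/-- conjugation by `*` -/
private lemma W.st (hI : Inv G) {u1 u2 v1 v2 : ℤ} (h : W G u1 u2 v1 v2) :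
    W G (-u1) u2 (-v1) v2 := by
  refine ⟨neq h.1, neq h.2.1, fun a b c d hT => ?_⟩
  have hT' : HTy a (5 * -b) (5 * -c) d := by
    rcases hT with ⟨h1, h2⟩ | ⟨h1, h2, h3, h4⟩
    · exact Or.inl ⟨by linear_combination h1, by omega⟩
    · exact Or.inr ⟨by linear_combination h1, h2, by omega, h4⟩
  have e := hI.st _ _ _ _ (nz hT' h.1) (nz hT' h.2.1)
  rw [h.2.2 _ _ _ _ hT', sub_self] at e
  have e' := sub_eq_zero.1 e
  calc _ = _ := by congr 1 <;> ring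
    _ = _ := e'
    _ = _ := by congr 1 <;> ring

/-- conjugation by `b` -/
private lemma W.sw (hI : Inv G) {u1 u2 v1 v2 : ℤ} (h : W G u1 u2 v1 v2) :
    W G u2 (7 * u1) v2 (7 * v1) := by
  refine ⟨swq h.1, swq h.2.1, fun a b c d hT => ?_⟩
  obtain ⟨c', rfl⟩ : ∃ c', c = 7 * c' := by
    rcases hT with ⟨h1, h2⟩ | ⟨h1, h2, h3, h4⟩
    · exact ⟨c / 7, by omega⟩
    · exact ⟨c / 7, by omega⟩
  have hT' : HTy d (5 * c') (5 * (7 * b)) a := by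
    rcases hT with ⟨h1, h2⟩ | ⟨h1, h2, h3, h4⟩
    · exact Or.inl ⟨by linear_combination h1, by omega⟩
    · exact Or.inr ⟨by linear_combination h1, h4, by omega, h2⟩
  have e := hI.sw _ _ _ _ (nz hT' h.1) (nz hT' h.2.1)
  rw [h.2.2 _ _ _ _ hT', sub_self, neg_zero] at e
  have e' := sub_eq_zero.1 e
  calc _ = _ := by congr 1 <;> ring
    _ = _ := e'
    _ = _ := by congr 1 <;> ring

/-- multiplication by a matrix on the right -/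
private lemma W.rm (hI : Inv G) {u1 u2 v1 v2 : ℤ} (h : W G u1 u2 v1 v2) (α β γ δ : ℤ)
    (hm : HTy α (5 * β) (5 * γ) δ) :
    W G (α * u1 + 5 * β * u2) (5 * γ * u1 + δ * u2) (α * v1 + 5 * β * v2)
      (5 * γ * v1 + δ * v2) := by
  refine ⟨nz hm h.1, nz hm h.2.1, fun a b c d hT => ?_⟩
  obtain ⟨k, a', b', c', d', hk, hT', e1, e2, e3, e4⟩ : ∃ k a' b' c' d' : ℤ, k ≠ 0 ∧
      HTy a' (5 * b') (5 * c') d' ∧ a * α + 25 * b * γ = k * a' ∧ a * β + b * δ = k * b' ∧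
      c * α + d * γ = k * c' ∧ 25 * c * β + d * δ = k * d' := by
    rcases hT with ⟨h1, h2⟩ | ⟨h1, h2, h3, h4⟩
    · rcases hm with ⟨g1, g2⟩ | ⟨g1, g2, g3, g4⟩
      · refine ⟨1, a * α + 25 * b * γ, a * β + b * δ, c * α + d * γ, 25 * c * β + d * δ,
          one_ne_zero, Or.inl ⟨?_, ?_⟩, by ring, by ring, by ring, by ring⟩
        · linear_combination (α * δ - 5 * β * (5 * γ)) * h1 + g1
        · obtain ⟨c', rfl⟩ : ∃ c', c = 7 * c' := ⟨c / 7, by omega⟩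
          obtain ⟨γ', rfl⟩ : ∃ γ', γ = 7 * γ' := ⟨γ / 7, by omega⟩
          exact ⟨5 * (c' * α + d * γ'), by ring⟩
      · refine ⟨1, a * α + 25 * b * γ, a * β + b * δ, c * α + d * γ, 25 * c * β + d * δ,
          one_ne_zero, Or.inr ?_, by ring, by ring, by ring, by ring⟩
        obtain ⟨c', rfl⟩ : ∃ c', c = 7 * c' := ⟨c / 7, by omega⟩
        obtain ⟨γ', rfl⟩ : ∃ γ', γ = 7 * γ' := ⟨γ / 7, by omega⟩
        obtain ⟨α', rfl⟩ := g2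
        obtain ⟨δ', rfl⟩ := g4
        refine ⟨?_, ⟨a * α' + 25 * b * γ', by ring⟩, ⟨5 * (c' * (7 * α') + d * γ'), by ring⟩,
          ⟨25 * c' * β + d * δ', by ring⟩⟩
        linear_combination (7 * α' * (7 * δ') - 5 * β * (5 * (7 * γ'))) * h1 + g1
    · rcases hm with ⟨g1, g2⟩ | ⟨g1, g2, g3, g4⟩
      · refine ⟨1, a * α + 25 * b * γ, a * β + b * δ, c * α + d * γ, 25 * c * β + d * δ,
          one_ne_zero, Or.inr ?_, by ring, by ring, by ring, by ring⟩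
        obtain ⟨c', rfl⟩ : ∃ c', c = 7 * c' := ⟨c / 7, by omega⟩
        obtain ⟨γ', rfl⟩ : ∃ γ', γ = 7 * γ' := ⟨γ / 7, by omega⟩
        obtain ⟨a', rfl⟩ := h2
        obtain ⟨d', rfl⟩ := h4
        refine ⟨?_, ⟨a' * α + 25 * b * γ', by ring⟩, ⟨5 * (c' * α + 7 * d' * γ'), by ring⟩,
          ⟨25 * c' * β + d' * δ, by ring⟩⟩
        linear_combination (α * δ - 5 * β * (5 * (7 * γ'))) * h1 + 7 * g1
      · obtain ⟨c', rfl⟩ : ∃ c', c = 7 * c' := ⟨c / 7, by omega⟩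
        obtain ⟨γ', rfl⟩ : ∃ γ', γ = 7 * γ' := ⟨γ / 7, by omega⟩
        obtain ⟨α', rfl⟩ := g2
        obtain ⟨δ', rfl⟩ := g4
        obtain ⟨a', rfl⟩ := h2
        obtain ⟨d', rfl⟩ := h4
        refine ⟨7, a' * (7 * α') + 25 * b * γ', a' * β + b * δ', c' * (7 * α') + d' * (7 * γ'),
          25 * c' * β + d' * (7 * δ'), (by norm_num), Or.inl ⟨?_, ?_⟩, by ring, by ring, by ring,
          by ring⟩
        · have e : (49 : ℤ) * ((a' * (7 * α') + 25 * b * γ') * (25 * c' * β + d' * (7 * δ')) -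
              5 * (a' * β + b * δ') * (5 * (c' * (7 * α') + d' * (7 * γ')))) = 49 * 1 := by
            linear_combination (7 * α' * (7 * δ') - 5 * β * (5 * (7 * γ'))) * h1 + 7 * g1
          exact mul_left_cancel₀ (by norm_num : (49 : ℤ) ≠ 0) e
        · exact ⟨5 * (c' * α' + d' * γ'), by ring⟩
  have e := h.2.2 _ _ _ _ hT'
  have f1 := hI.hom k _ _ hk (nz hT' h.1)
  have f2 := hI.hom k _ _ hk (nz hT' h.2.1)
  rw [← f1, ← f2] at e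
  have q1 : ∀ s t : ℤ, a * (α * s + 5 * β * t) + 5 * b * (5 * γ * s + δ * t) =
      k * (a' * s + 5 * b' * t) := by
    intro s t
    linear_combination s * e1 + 5 * t * e2
  have q2 : ∀ s t : ℤ, 5 * c * (α * s + 5 * β * t) + d * (5 * γ * s + δ * t) =
      k * (5 * c' * s + d' * t) := by
    intro s t
    linear_combination 5 * s * e3 + t * e4
  rw [q1, q1, q2, q2]
  exact e

/-- one edge: the matrix is `g ρ`, `ρ = (r1 r2; r3 r4)` -/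
private lemma one {r1 r2 r3 r4 : ℤ} (hr : r1 * r4 - r2 * r3 = 1) (hW : W G r1 r3 r2 r4)
    {p q r s : ℤ} (h : p * s - q * r = 1) (e1 : (5 : ℤ) ∣ q * r1 - p * r2)
    (e2 : (5 : ℤ) ∣ r * r4 - s * r3) (e3 : (7 : ℤ) ∣ r * r4 - s * r3) : G p r = G q s := by
  obtain ⟨b, hb⟩ := e1
  obtain ⟨c, hc⟩ := e2
  have hT : HTy (p * r4 - q * r3) (5 * b) (5 * c) (s * r1 - r * r2) := by
    refine Or.inl ⟨?_, by rw [← hc]; exact e3⟩
    rw [← hb, ← hc]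
    linear_combination (p * s - q * r) * hr + h
  have e := hW.2.2 _ _ _ _ hT
  have g1 : (p * r4 - q * r3) * r1 + 5 * b * r3 = p := by
    linear_combination p * hr - r3 * hb
  have g2 : 5 * c * r1 + (s * r1 - r * r2) * r3 = r := by
    linear_combination r * hr - r1 * hc
  have g3 : (p * r4 - q * r3) * r2 + 5 * b * r4 = q := by
    linear_combination q * hr - r4 * hb
  have g4 : 5 * c * r2 + (s * r1 - r * r2) * r4 = s := by
    linear_combination s * hr - r2 * hc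
  rw [g1, g2, g3, g4] at e
  exact e

/-- absolute values of the cusps -/
private def Cu : List (ℕ × ℕ) :=
  [(0, 1), (1, 2), (1, 1), (2, 1), (1, 0), (3, 7), (4, 7), (2, 3), (16, 7), (1, 7), (1, 3), (1, 4),
   (3, 1), (8, 7), (3, 5), (1, 5), (5, 7), (6, 5), (5, 4), (7, 6), (10, 7), (4, 3), (7, 5), (3, 2),
   (2, 5), (3, 4), (7, 4), (5, 3), (8, 11), (5, 12), (1, 6), (7, 12), (9, 4), (7, 3), (5, 2), (11, 5)]

private lemma W.ng (hI : Inv G) {x y : ℤ} (h : W G 1 0 x y) : W G 1 0 (-x) (-y) :=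
  h.sc hI 1 (-1) ⟨by norm_num, by norm_num, by norm_num, by norm_num, by ring, by ring⟩

private lemma W.mi (hI : Inv G) {x y : ℤ} (h : W G 1 0 x y) : W G 1 0 (-x) y :=
  (h.st hI).sc hI (-1) 1 ⟨by norm_num, by norm_num, by norm_num, by norm_num, by ring, by ring⟩

/-- the cusps are equivalent to `∞` -/
private lemma cusps (hI : Inv G) (q0_1 : W G 1 0 0 1) (q1_2 : W G 1 0 1 2) (g3 : W G 1 2 3 7)
    (q1_1 : W G 1 0 1 1) (g5 : W G 2 3 4 7) (g6 : W G 4 7 1 2) (q2_1 : W G 1 0 2 1)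
    (g8 : W G 17 7 7 3) :
    ∀ c ∈ Cu, W G 1 0 (c.1 : ℤ) (c.2 : ℤ) := by
  have m0 : HTy 87 (5 * (-1)) (5 * 7) (-2) := Or.inl (by decide)
  have m1 : HTy 1 (5 * 1) (5 * 0) 1 := Or.inl (by decide)
  have m2 : HTy (-39) (5 * (-2)) (5 * (-7)) (-9) := Or.inl (by decide)
  have m3 : HTy (-21) (5 * 5) (5 * 7) (-42) := Or.inr (by decide)
  have m4 : HTy (-8) (5 * 1) (5 * 7) (-22) := Or.inl (by decide)
  have m5 : HTy 42 (5 * 5) (5 * 7) 21 := Or.inr (by decide)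
  have m6 : HTy 44 (5 * (-1)) (5 * (-7)) 4 := Or.inl (by decide)
  have m7 : HTy 49 (5 * 2) (5 * (-7)) (-7) := Or.inr (by decide)
  have m8 : HTy 14 (5 * 5) (5 * 7) 63 := Or.inr (by decide)
  have m9 : HTy (-27) (5 * (-2)) (5 * (-7)) (-13) := Or.inl (by decide)
  have m10 : HTy (-63) (5 * 5) (5 * 7) (-14) := Or.inr (by decide)
  have m11 : HTy 49 (5 * (-1)) (5 * 14) (-7) := Or.inr (by decide)
  have m12 : HTy (-73) (5 * (-1)) (5 * (-35)) (-12) := Or.inl (by decide)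
  have m13 : HTy 56 (5 * (-1)) (5 * 63) (-28) := Or.inr (by decide)
  have m14 : HTy (-159) (5 * 5) (5 * (-14)) 11 := Or.inl (by decide)
  have m15 : HTy (-224) (5 * (-3)) (5 * 21) 7 := Or.inr (by decide)
  have m16 : HTy 87 (5 * 1) (5 * (-7)) (-2) := Or.inl (by decide)
  have q1_0 : W G 1 0 1 0 := q0_1.tr q0_1.sy
  have q3_7 : W G 1 0 3 7 := q1_2.tr g3
  have q4_7 : W G 1 0 4 7 := q1_2.tr g6.sy
  have q2_3 : W G 1 0 2 3 := q4_7.tr g5.sy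
  have q16_7 : W G 1 0 16 7 := q2_1.tr (((g8.sw hI).rm hI _ _ _ _ m0).sc hI 7 1 (by norm_num) : W G 2 1 16 7)
  have q1_7 : W G 1 0 1 7 := q1_0.tr (((q0_1.sy.tr q1_1).sw hI).sc hI 1 1 (by norm_num) : W G 1 0 1 7)
  have q1_3 : W G 1 0 1 3 := q1_0.tr (((q0_1.sy.tr q3_7).sw hI).sc hI 1 7 (by norm_num) : W G 1 0 1 3)
  have q1_4 : W G 1 0 1 4 := q0_1.tr (((q1_0.sy.tr q4_7).sw hI).sc hI 7 7 (by norm_num) : W G 0 1 1 4)
  have q3_1 : W G 1 0 3 1 := q1_0.tr (((q1_0.sy.tr (q2_1.mi hI)).rm hI _ _ _ _ m1).sc hI 1 1 (by norm_num) : W G 1 0 3 1)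
  have q8_7 : W G 1 0 8 7 := q1_1.tr (((((q4_7.mi hI).sy.tr (q1_2.mi hI)).sw hI).rm hI _ _ _ _ m2).sc hI 7 (-1) (by norm_num) : W G 1 1 8 7)
  have q3_5 : W G 1 0 3 5 := (((q4_7.mi hI).tr (((q1_1.sy.tr q1_0).rm hI _ _ _ _ m3).sc hI (-1) 7 (by norm_num) : W G (-4) 7 (-3) 5)).st hI).sc hI (-1) 1 (by norm_num)
  have q1_5 : W G 1 0 1 5 := (((q1_4.mi hI).tr (((q2_3.sy.tr q3_5).rm hI _ _ _ _ m4).sc hI 1 (-1) (by norm_num) : W G (-1) 4 (-1) 5)).st hI).sc hI (-1) 1 (by norm_num)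
  have q5_7 : W G 1 0 5 7 := q0_1.tr (((q1_0.sy.tr q1_5).sw hI).sc hI 7 1 (by norm_num) : W G 0 1 5 7)
  have q6_5 : W G 1 0 6 5 := q8_7.tr ((((q1_2.mi hI).sy.tr q1_0).rm hI _ _ _ _ m5).sc hI 1 7 (by norm_num) : W G 8 7 6 5)
  have q5_4 : W G 1 0 5 4 := q6_5.tr (((q1_0.sy.tr (q5_7.mi hI)).rm hI _ _ _ _ m5).sc hI 7 (-7) (by norm_num) : W G 6 5 5 4)
  have q7_6 : W G 1 0 7 6 := q6_5.tr (((q1_0.sy.tr (q3_7.mi hI)).rm hI _ _ _ _ m5).sc hI 7 7 (by norm_num) : W G 6 5 7 6)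
  have q10_7 : W G 1 0 10 7 := (((q5_4.mi hI).tr ((((q1_0.sy.tr q6_5).sw hI).rm hI _ _ _ _ m6).sc hI 7 (-1) (by norm_num) : W G (-5) 4 (-10) 7)).st hI).sc hI (-1) 1 (by norm_num)
  have q4_3 : W G 1 0 4 3 := (((q5_4.mi hI).tr ((((q1_0.sy.tr q8_7).sw hI).rm hI _ _ _ _ m6).sc hI 7 (-7) (by norm_num) : W G (-5) 4 (-4) 3)).st hI).sc hI (-1) 1 (by norm_num)
  have q7_5 : W G 1 0 7 5 := (((q10_7.mi hI).tr (((q0_1.sy.tr q1_0).rm hI _ _ _ _ m7).sc hI (-1) (-7) (by norm_num) : W G (-10) 7 (-7) 5)).st hI).sc hI (-1) 1 (by norm_num)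
  have q3_2 : W G 1 0 3 2 := (((q7_5.mi hI).tr (((q1_0.sy.tr (q1_7.mi hI)).rm hI _ _ _ _ m7).sc hI (-7) (-7) (by norm_num) : W G (-7) 5 (-3) 2)).st hI).sc hI (-1) 1 (by norm_num)
  have q2_5 : W G 1 0 2 5 := q3_7.tr ((((q2_1.mi hI).sy.tr q1_0).rm hI _ _ _ _ m8).sc hI (-1) 7 (by norm_num) : W G 3 7 2 5)
  have q3_4 : W G 1 0 3 4 := q5_7.tr (((((q2_5.mi hI).sy.tr (q3_7.mi hI)).sw hI).rm hI _ _ _ _ m9).sc hI 1 7 (by norm_num) : W G 5 7 3 4)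
  have q7_4 : W G 1 0 7 4 := (((q2_1.mi hI).tr ((((q1_3.sy.tr q1_2).sw hI).rm hI _ _ _ _ m10).sc hI 7 (-7) (by norm_num) : W G (-2) 1 (-7) 4)).st hI).sc hI (-1) 1 (by norm_num)
  have q5_3 : W G 1 0 5 3 := (((q7_4.mi hI).tr ((((q1_2.sy.tr q2_5).sw hI).rm hI _ _ _ _ m10).sc hI (-7) (-7) (by norm_num) : W G (-7) 4 (-5) 3)).st hI).sc hI (-1) 1 (by norm_num)
  have q8_11 : W G 1 0 8 11 := q5_7.tr ((((q1_0.sy.tr q3_1).sw hI).rm hI _ _ _ _ m11).sc hI (-7) (-7) (by norm_num) : W G 5 7 8 11)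
  have q5_12 : W G 1 0 5 12 := q3_7.tr (((((q2_1.mi hI).sy.tr q1_0).sw hI).rm hI _ _ _ _ m12).sc hI (-1) (-7) (by norm_num) : W G 3 7 5 12)
  have q1_6 : W G 1 0 1 6 := q1_5.tr ((((q5_3.sy.tr q3_2).sw hI).rm hI _ _ _ _ m13).sc hI (-7) 7 (by norm_num) : W G 1 5 1 6)
  have q7_12 : W G 1 0 7 12 := (((q3_5.mi hI).tr ((((q0_1.sy.tr q1_6).sw hI).rm hI _ _ _ _ m3).sc hI 7 (-7) (by norm_num) : W G (-3) 5 (-7) 12)).st hI).sc hI (-1) 1 (by norm_num)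
  have q9_4 : W G 1 0 9 4 := q16_7.tr (((q1_7.sy.tr q1_6).rm hI _ _ _ _ m14).sc hI 1 (-1) (by norm_num) : W G 16 7 9 4)
  have q7_3 : W G 1 0 7 3 := (((q2_1.mi hI).tr (((((q2_1.mi hI).sy.tr (q9_4.mi hI)).sw hI).rm hI _ _ _ _ m15).sc hI 7 (-7) (by norm_num) : W G (-2) 1 (-7) 3)).st hI).sc hI (-1) 1 (by norm_num)
  have q5_2 : W G 1 0 5 2 := (((q16_7.mi hI).tr (((((q7_3.mi hI).sy.tr q1_0).sw hI).rm hI _ _ _ _ m16).sc hI (-1) (-7) (by norm_num) : W G (-16) 7 (-5) 2)).st hI).sc hI (-1) 1 (by norm_num)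
  have q11_5 : W G 1 0 11 5 := (((q2_1.mi hI).tr (((((q2_1.mi hI).sy.tr (q5_2.mi hI)).sw hI).rm hI _ _ _ _ m15).sc hI 7 (-7) (by norm_num) : W G (-2) 1 (-11) 5)).st hI).sc hI (-1) 1 (by norm_num)
  intro c hc
  simp only [Cu, List.mem_cons, List.not_mem_nil, or_false] at hc
  rcases hc with rfl | rfl | rfl | rfl | rfl | rfl | rfl | rfl | rfl | rfl | rfl | rfl | rfl | rfl | rfl | rfl | rfl | rfl | rfl | rfl | rfl | rfl | rfl | rfl | rfl | rfl | rfl | rfl | rfl | rfl | rfl | rfl | rfl | rfl | rfl | rfl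
  all_goals simp only [Nat.cast_one, Nat.cast_zero, Nat.cast_ofNat]; assumption

private lemma abs_cusp (hI : Inv G) (h : ∀ c ∈ Cu, W G 1 0 (c.1 : ℤ) (c.2 : ℤ)) {x y : ℤ}
    (hc : (x.natAbs, y.natAbs) ∈ Cu) : W G 1 0 x y := by
  have e : W G 1 0 (x.natAbs : ℤ) (y.natAbs : ℤ) := h _ hc
  rcases Int.natAbs_eq x with hx | hx <;> rcases Int.natAbs_eq y with hy | hy <;> rw [hx, hy]
  · exact e
  · have := (e.ng hI).mi hI
    rwa [neg_neg] at this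
  · exact e.mi hI
  · exact e.ng hI

end

set_option maxRecDepth 100000 in
private lemma ok01 : ∀ t ∈ LH01, t.1 * t.2.2.2 - t.2.1 * t.2.2.1 = 1 ∧
    (t.1.natAbs, t.2.2.1.natAbs) ∈ Cu ∧ (t.2.1.natAbs, t.2.2.2.natAbs) ∈ Cu := by decide

set_option maxRecDepth 100000 in
private lemma ok10 : ∀ t ∈ LH10, t.1 * t.2.2.2 - t.2.1 * t.2.2.1 = 1 ∧
    (t.1.natAbs, t.2.2.1.natAbs) ∈ Cu ∧ (t.2.1.natAbs, t.2.2.2.natAbs) ∈ Cu := by decide

set_option maxRecDepth 100000 in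
private lemma ok11 : ∀ t ∈ LH11, t.1 * t.2.2.2 - t.2.1 * t.2.2.1 = 1 ∧
    (t.1.natAbs, t.2.2.1.natAbs) ∈ Cu ∧ (t.2.1.natAbs, t.2.2.2.natAbs) ∈ Cu := by decide

set_option maxRecDepth 100000 in
private lemma ok12 : ∀ t ∈ LH12, t.1 * t.2.2.2 - t.2.1 * t.2.2.1 = 1 ∧
    (t.1.natAbs, t.2.2.1.natAbs) ∈ Cu ∧ (t.2.1.natAbs, t.2.2.2.natAbs) ∈ Cu := by decide

set_option maxRecDepth 100000 in
private lemma ok13 : ∀ t ∈ LH13, t.1 * t.2.2.2 - t.2.1 * t.2.2.1 = 1 ∧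
    (t.1.natAbs, t.2.2.1.natAbs) ∈ Cu ∧ (t.2.1.natAbs, t.2.2.2.natAbs) ∈ Cu := by decide

set_option maxRecDepth 100000 in
private lemma ok14 : ∀ t ∈ LH14, t.1 * t.2.2.2 - t.2.1 * t.2.2.1 = 1 ∧
    (t.1.natAbs, t.2.2.1.natAbs) ∈ Cu ∧ (t.2.1.natAbs, t.2.2.2.natAbs) ∈ Cu := by decide

set_option maxRecDepth 100000 in
private lemma ok15 : ∀ t ∈ LH15, t.1 * t.2.2.2 - t.2.1 * t.2.2.1 = 1 ∧
    (t.1.natAbs, t.2.2.1.natAbs) ∈ Cu ∧ (t.2.1.natAbs, t.2.2.2.natAbs) ∈ Cu := by decide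

set_option maxRecDepth 100000 in
private lemma ok16 : ∀ t ∈ LH16, t.1 * t.2.2.2 - t.2.1 * t.2.2.1 = 1 ∧
    (t.1.natAbs, t.2.2.1.natAbs) ∈ Cu ∧ (t.2.1.natAbs, t.2.2.2.natAbs) ∈ Cu := by decide

private lemma p01 : ∀ t ∈ LH01, (7 : ℤ) ∣ t.2.2.1 := by decide

private lemma p10 : ∀ t ∈ LH10, (7 : ℤ) ∣ t.2.2.2 := by decide

private lemma p11 : ∀ t ∈ LH11, (7 : ℤ) ∣ t.2.2.2 - 1 * t.2.2.1 := by decide

private lemma p12 : ∀ t ∈ LH12, (7 : ℤ) ∣ t.2.2.2 - 2 * t.2.2.1 := by decide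

private lemma p13 : ∀ t ∈ LH13, (7 : ℤ) ∣ t.2.2.2 - 3 * t.2.2.1 := by decide

private lemma p14 : ∀ t ∈ LH14, (7 : ℤ) ∣ t.2.2.2 - 4 * t.2.2.1 := by decide

private lemma p15 : ∀ t ∈ LH15, (7 : ℤ) ∣ t.2.2.2 - 5 * t.2.2.1 := by decide

private lemma p16 : ∀ t ∈ LH16, (7 : ℤ) ∣ t.2.2.2 - 6 * t.2.2.1 := by decide

set_option maxRecDepth 100000 in
private lemma cls01 : ∀ p q r s : ZMod 5, p * s - q * r = 1 → ∃ t ∈ LH01,
    q * (t.1 : ZMod 5) - p * (t.2.1 : ZMod 5) = 0 ∧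
      r * (t.2.2.2 : ZMod 5) - s * (t.2.2.1 : ZMod 5) = 0 := by decide

set_option maxRecDepth 100000 in
private lemma cls10 : ∀ p q r s : ZMod 5, p * s - q * r = 1 → ∃ t ∈ LH10,
    q * (t.1 : ZMod 5) - p * (t.2.1 : ZMod 5) = 0 ∧
      r * (t.2.2.2 : ZMod 5) - s * (t.2.2.1 : ZMod 5) = 0 := by decide

set_option maxRecDepth 100000 in
private lemma cls11 : ∀ p q r s : ZMod 5, p * s - q * r = 1 → ∃ t ∈ LH11,
    q * (t.1 : ZMod 5) - p * (t.2.1 : ZMod 5) = 0 ∧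
      r * (t.2.2.2 : ZMod 5) - s * (t.2.2.1 : ZMod 5) = 0 := by decide

set_option maxRecDepth 100000 in
private lemma cls12 : ∀ p q r s : ZMod 5, p * s - q * r = 1 → ∃ t ∈ LH12,
    q * (t.1 : ZMod 5) - p * (t.2.1 : ZMod 5) = 0 ∧
      r * (t.2.2.2 : ZMod 5) - s * (t.2.2.1 : ZMod 5) = 0 := by decide

set_option maxRecDepth 100000 in
private lemma cls13 : ∀ p q r s : ZMod 5, p * s - q * r = 1 → ∃ t ∈ LH13,
    q * (t.1 : ZMod 5) - p * (t.2.1 : ZMod 5) = 0 ∧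
      r * (t.2.2.2 : ZMod 5) - s * (t.2.2.1 : ZMod 5) = 0 := by decide

set_option maxRecDepth 100000 in
private lemma cls14 : ∀ p q r s : ZMod 5, p * s - q * r = 1 → ∃ t ∈ LH14,
    q * (t.1 : ZMod 5) - p * (t.2.1 : ZMod 5) = 0 ∧
      r * (t.2.2.2 : ZMod 5) - s * (t.2.2.1 : ZMod 5) = 0 := by decide

set_option maxRecDepth 100000 in
private lemma cls15 : ∀ p q r s : ZMod 5, p * s - q * r = 1 → ∃ t ∈ LH15,
    q * (t.1 : ZMod 5) - p * (t.2.1 : ZMod 5) = 0 ∧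
      r * (t.2.2.2 : ZMod 5) - s * (t.2.2.1 : ZMod 5) = 0 := by decide

set_option maxRecDepth 100000 in
private lemma cls16 : ∀ p q r s : ZMod 5, p * s - q * r = 1 → ∃ t ∈ LH16,
    q * (t.1 : ZMod 5) - p * (t.2.1 : ZMod 5) = 0 ∧
      r * (t.2.2.2 : ZMod 5) - s * (t.2.2.1 : ZMod 5) = 0 := by decide

private lemma six : ∀ r s : ZMod 7, r ≠ 0 → s ≠ 0 → s - 1 * r = 0 ∨ s - 2 * r = 0 ∨
    s - 3 * r = 0 ∨ s - 4 * r = 0 ∨ s - 5 * r = 0 ∨ s - 6 * r = 0 := by decide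

private lemma dvd7 {n : ℤ} : (7 : ℤ) ∣ n ↔ (n : ZMod 7) = 0 :=
  (ZMod.intCast_zmod_eq_zero_iff_dvd n 7).symm

private lemma fin (j r s x y : ℤ) (h1 : (7 : ℤ) ∣ y - j * x) (h2 : (7 : ℤ) ∣ s - j * r) :
    (7 : ℤ) ∣ r * y - s * x := by
  obtain ⟨a, ha⟩ := h1
  obtain ⟨b, hb⟩ := h2
  exact ⟨r * a - b * x, by linear_combination r * ha - x * hb⟩

/-- the representative of a matrix -/
private lemma rep {p q r s : ℤ} (h : p * s - q * r = 1) : ∃ t : ℤ × ℤ × ℤ × ℤ,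
    (t.1 * t.2.2.2 - t.2.1 * t.2.2.1 = 1 ∧
    (t.1.natAbs, t.2.2.1.natAbs) ∈ Cu ∧ (t.2.1.natAbs, t.2.2.2.natAbs) ∈ Cu) ∧
    (5 : ℤ) ∣ q * t.1 - p * t.2.1 ∧ (5 : ℤ) ∣ r * t.2.2.2 - s * t.2.2.1 ∧
      (7 : ℤ) ∣ r * t.2.2.2 - s * t.2.2.1 := by
  have hc : (p : ZMod 5) * s - q * r = 1 := by
    have h' := congrArg (Int.cast : ℤ → ZMod 5) h
    push_cast at h'
    exact h'
  by_cases hr : (7 : ℤ) ∣ r
  · obtain ⟨t, ht, e1, e2⟩ := cls01 _ _ _ _ hc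
    exact ⟨t, ok01 t ht, dvd5.2 (by push_cast; exact e1), dvd5.2 (by push_cast; exact e2),
      dvd_sub (Dvd.dvd.mul_right hr _) (Dvd.dvd.mul_left (p01 t ht) _)⟩
  by_cases hs : (7 : ℤ) ∣ s
  · obtain ⟨t, ht, e1, e2⟩ := cls10 _ _ _ _ hc
    exact ⟨t, ok10 t ht, dvd5.2 (by push_cast; exact e1), dvd5.2 (by push_cast; exact e2),
      dvd_sub (Dvd.dvd.mul_left (p10 t ht) _) (Dvd.dvd.mul_right hs _)⟩
  have h6 := six (r : ZMod 7) (s : ZMod 7) (fun e => hr (dvd7.2 e)) (fun e => hs (dvd7.2 e))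
  rcases h6 with e | e | e | e | e | e
  · obtain ⟨t, ht, e1, e2⟩ := cls11 _ _ _ _ hc
    exact ⟨t, ok11 t ht, dvd5.2 (by push_cast; exact e1), dvd5.2 (by push_cast; exact e2),
      fin 1 r s _ _ (p11 t ht) (dvd7.2 (by push_cast; exact e))⟩
  · obtain ⟨t, ht, e1, e2⟩ := cls12 _ _ _ _ hc
    exact ⟨t, ok12 t ht, dvd5.2 (by push_cast; exact e1), dvd5.2 (by push_cast; exact e2),
      fin 2 r s _ _ (p12 t ht) (dvd7.2 (by push_cast; exact e))⟩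
  · obtain ⟨t, ht, e1, e2⟩ := cls13 _ _ _ _ hc
    exact ⟨t, ok13 t ht, dvd5.2 (by push_cast; exact e1), dvd5.2 (by push_cast; exact e2),
      fin 3 r s _ _ (p13 t ht) (dvd7.2 (by push_cast; exact e))⟩
  · obtain ⟨t, ht, e1, e2⟩ := cls14 _ _ _ _ hc
    exact ⟨t, ok14 t ht, dvd5.2 (by push_cast; exact e1), dvd5.2 (by push_cast; exact e2),
      fin 4 r s _ _ (p14 t ht) (dvd7.2 (by push_cast; exact e))⟩
  · obtain ⟨t, ht, e1, e2⟩ := cls15 _ _ _ _ hc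
    exact ⟨t, ok15 t ht, dvd5.2 (by push_cast; exact e1), dvd5.2 (by push_cast; exact e2),
      fin 5 r s _ _ (p15 t ht) (dvd7.2 (by push_cast; exact e))⟩
  · obtain ⟨t, ht, e1, e2⟩ := cls16 _ _ _ _ hc
    exact ⟨t, ok16 t ht, dvd5.2 (by push_cast; exact e1), dvd5.2 (by push_cast; exact e2),
      fin 6 r s _ _ (p16 t ht) (dvd7.2 (by push_cast; exact e))⟩

/-- Module E1B. -/
theorem hE1B : StHE1b := by
  intro he _ hfar k G hk hB hz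
  obtain ⟨j, rfl⟩ : ∃ j, k = j + 2 := ⟨k - 2, by omega⟩
  obtain ⟨hS, -, -, hW, hT⟩ := hB
  have hI : Inv G := by
    refine ⟨hS.1, ?_, ?_⟩
    · intro x y z w h1 h2
      have e := hT.diff h1 h2
      simp only [act] at e
      rw [← e]
      congr 2 <;> ring
    · intro x y z w h1 h2
      have e := hW.diff h1 h2
      have f := hT.diff (swq' h1) (swq' h2)
      simp only [act, Pi.neg_apply] at e f
      have e1 : ∀ s t : ℤ, G (-1 * (-t) + 0 * (7 * s)) (0 * (-t) + 1 * (7 * s)) = G t (7 * s) := by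
        intro s t; congr 1 <;> ring
      have e2 : ∀ s t : ℤ, G (0 * s + -1 * t) (7 * s + 0 * t) = G (-t) (7 * s) := by
        intro s t; congr 1 <;> ring
      rw [e1, e1] at f
      rw [e2, e2] at e
      rw [f, e]
      ring
  have key : ∀ u1 u2 v1 v2 : ℤ, (u1 ≠ 0 ∨ u2 ≠ 0) → (v1 ≠ 0 ∨ v2 ≠ 0) →
      (∀ x y : ZMod (5 ^ (j + 1)), edgeH 1 u1 u2 v1 v2 G x y = 0) → W G u1 u2 v1 v2 := by
    intro u1 u2 v1 v2 hu hv h0
    refine ⟨hu, hv, fun a b c d hg => ?_⟩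
    have hg' : HTy a (5 ^ 1 * b) (5 * c) d := by rwa [pow_one]
    obtain ⟨x, y, hp⟩ := exPl j hg'
    have e := he ℂ _ 1 (j + 1) (j + 1) G hS u1 u2 v1 v2 hu hv x y a b c d hp
    rw [h0 x y, pow_one] at e
    exact (sub_eq_zero.1 e.symm)
  have h1 : W G 1 0 0 1 := key 1 0 0 1 (by norm_num) (by norm_num) fun x y => (hz x y).1.1.1
  have h2 : W G 1 0 1 2 := key 1 0 1 2 (by norm_num) (by norm_num) fun x y => (hz x y).1.1.2
  have h3 : W G 1 2 3 7 := key 1 2 3 7 (by norm_num) (by norm_num) fun x y => (hz x y).1.2.1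
  have h4 : W G 1 0 1 1 := key 1 0 1 1 (by norm_num) (by norm_num) fun x y => (hz x y).1.2.2
  have h5 : W G 2 3 4 7 := key 2 3 4 7 (by norm_num) (by norm_num) fun x y => (hz x y).2.1.1
  have h6 : W G 4 7 1 2 := key 4 7 1 2 (by norm_num) (by norm_num) fun x y => (hz x y).2.1.2
  have h7 : W G 1 0 2 1 := key 1 0 2 1 (by norm_num) (by norm_num) fun x y => (hz x y).2.2.1
  have h8 : W G 17 7 7 3 := key 17 7 7 3 (by norm_num) (by norm_num) fun x y => (hz x y).2.2.2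
  have hC := cusps hI h1 h2 h3 h4 h5 h6 h7 h8
  refine hfar ℂ _ G hS.1 fun p q r s h => ?_
  obtain ⟨t, ⟨f1, f2, f3⟩, d1, d2, d3⟩ := rep h
  exact one f1 ((abs_cusp hI hC f2).sy.tr (abs_cusp hI hC f3)) h d1 d2 d3

end Pool.Agent.Helper75.Q7P5
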